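import Pool.Agent.W829.RP.Defs

/-! The economic cap covering. -/

set_option autoImplicit false

open MeasureTheory Set Module
open scoped ENNReal Pointwise

namespace Pool.Agent.W704.RP

open Pool.Agent.W829.RP

section

variable {V : Type} [NormedAddCommGroup V] [NormedSpace ℝ V]

lemma mac_mono {K : Set V} (hK : Convex ℝ K) (y : V) {r r' : ℝ} (h0 : 0 ≤ r) (h : r ≤ r') :
    mac K y r ⊆ mac K y r' := by
  rintro z ⟨p, rfl, h1, h2⟩
  rcases eq_or_lt_of_le (h0.trans h) with h3 | h3
  · have hr : r = r' := le_antisymm h (by rw [← h3]; exact h0)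
    exact ⟨p, by rw [hr], h1, h2⟩
  · refine ⟨(r / r') • p, ?_, ?_, ?_⟩
    · rw [smul_smul, mul_div_cancel₀ _ h3.ne']
    · have hl : 0 ≤ r / r' := div_nonneg h0 h3.le
      have hl1 : r / r' ≤ 1 := (div_le_one h3).2 h
      have := hK h1 h2 (a := (1 + r / r') / 2) (b := (1 - r / r') / 2) (by linarith) (by linarith)
        (by ring)
      convert this using 1
      module
    · have hl : 0 ≤ r / r' := div_nonneg h0 h3.le
      have hl1 : r / r' ≤ 1 := (div_le_one h3).2 h
      have := hK h1 h2 (a := (1 - r / r') / 2) (b := (1 + r / r') / 2) (by linarith) (by linarith)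
        (by ring)
      convert this using 1
      module

/-- the symmetric part of `K` at `y` -/
def QQ (K : Set V) (y : V) : Set V := {p | y + p ∈ K ∧ y - p ∈ K}

lemma mac_eq (K : Set V) (y : V) (r : ℝ) : mac K y r = (fun x => y + x) '' (r • QQ K y) := by
  ext z
  constructor
  · rintro ⟨p, rfl, h1, h2⟩
    exact ⟨r • p, Set.smul_mem_smul_set ⟨h1, h2⟩, rfl⟩
  · rintro ⟨_, ⟨p, ⟨h1, h2⟩, rfl⟩, rfl⟩
    exact ⟨p, rfl, h1, h2⟩

lemma QQ_compact {K : Set V} (hK : IsCompact K) (y : V) : IsCompact (QQ K y) := by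
  have h1 : IsCompact ((fun x => x - y) '' K) := hK.image (continuous_id.sub continuous_const)
  refine h1.of_isClosed_subset ?_ ?_
  · have e1 : Continuous fun p : V => y + p := continuous_const.add continuous_id
    have e2 : Continuous fun p : V => y - p := continuous_const.sub continuous_id
    exact (hK.isClosed.preimage e1).inter (hK.isClosed.preimage e2)
  · rintro p ⟨hp, -⟩
    exact ⟨y + p, hp, by simp⟩

lemma mac_compact {K : Set V} (hK : IsCompact K) (y : V) (r : ℝ) : IsCompact (mac K y r) := by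
  rw [mac_eq]
  refine IsCompact.image ?_ (continuous_const.add continuous_id)
  exact (QQ_compact hK y).image (continuous_const_smul r)

variable [FiniteDimensional ℝ V] [MeasureSpace V] [BorelSpace V]
  [(volume : Measure V).IsAddHaarMeasure]

lemma mac_vol (K : Set V) (y : V) {r : ℝ} (hr : 0 ≤ r) :
    volume (mac K y r) = ENNReal.ofReal (r ^ finrank ℝ V) * volume (QQ K y) := by
  rw [mac_eq, Set.image_add_left, measure_preimage_add, Measure.addHaar_smul,
    abs_of_nonneg (pow_nonneg hr _)]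

lemma hyper_null (l : V →L[ℝ] ℝ) (hl : l ≠ 0) (s : ℝ) : volume {x : V | l x = s} = 0 := by
  rcases Set.eq_empty_or_nonempty {x : V | l x = s} with h | ⟨x0, hx0⟩
  · rw [h]; exact measure_empty
  · have h1 : ((AffineSubspace.mk' x0 (LinearMap.ker (l : V →ₗ[ℝ] ℝ)) : AffineSubspace ℝ V) : Set V)
        = {x : V | l x = s} := by
      ext x
      rw [SetLike.mem_coe, AffineSubspace.mem_mk', LinearMap.mem_ker]
      simp only [vsub_eq_sub, map_sub, ContinuousLinearMap.coe_coe, Set.mem_ofPred_eq]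
      have : l x0 = s := hx0
      rw [this, sub_eq_zero]
    rw [← h1]
    refine Measure.addHaar_affineSubspace _ _ ?_
    intro h2
    apply hl
    have h3 := congrArg AffineSubspace.direction h2
    rw [AffineSubspace.direction_mk', AffineSubspace.direction_top, LinearMap.ker_eq_top] at h3
    ext x
    exact congrArg (fun f : V →ₗ[ℝ] ℝ => f x) h3

/-- the height of a good cap is positive -/
lemma good_height {K : Set V} (hK : IsCompact K) {t : ℝ} (ht : 0 < t) {y : V} {l : V →L[ℝ] ℝ}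
    {s : ℝ} (hg : Good K t y l s) : s < sSup (l '' K) := by
  by_contra hcon
  push Not at hcon
  have hl : l ≠ 0 := by
    intro h
    have := hg.norm
    rw [h, norm_zero] at this
    exact zero_ne_one this
  have hb : BddAbove (l '' K) := (hK.image l.continuous).bddAbove
  have hsub : cap K l s ⊆ {x : V | l x = s} := by
    rintro x ⟨hx, hsx⟩
    have := le_csSup hb ⟨x, hx, rfl⟩
    exact le_antisymm (this.trans hcon) hsx
  have h0 : volume (cap K l s) = 0 := measure_mono_null hsub (hyper_null l hl s)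
  have h1 := hg.lo
  rw [h0] at h1
  have h2 : 0 < ENNReal.ofReal (t / 2) := ENNReal.ofReal_pos.2 (by linarith)
  exact absurd h1 (not_le.2 h2)

/-- the small Macbeath regions of a good cap are strictly inside -/
lemma good_lt {K : Set V} (hK : IsCompact K) {t : ℝ} (ht : 0 < t) {y : V} {l : V →L[ℝ] ℝ}
    {s : ℝ} (hg : Good K t y l s) {r : ℝ} (hr0 : 0 ≤ r) (hr : r < 1) {z : V}
    (hz : z ∈ mac K y r) : s < l z := by
  obtain ⟨p, rfl, h1, h2⟩ := hz
  have hb : BddAbove (l '' K) := (hK.image l.continuous).bddAbove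
  have e1 := le_csSup hb ⟨y + p, h1, rfl⟩
  have e2 := le_csSup hb ⟨y - p, h2, rfl⟩
  have hh := good_height hK ht hg
  have hm := hg.mid
  set M := sSup (l '' K)
  rw [map_add] at e1
  rw [map_sub] at e2
  rw [map_add, map_smul, smul_eq_mul]
  have e3 : -(M - l y) ≤ l p := by linarith
  have e4 : r * -(M - l y) ≤ r * l p := mul_le_mul_of_nonneg_left e3 hr0
  have e5 : M - l y = (M - s) / 2 := by linarith
  rw [e5] at e4
  have e6 : l y = (s + M) / 2 := by linarith
  rw [e6]
  nlinarith [mul_pos (sub_pos.2 hr) (sub_pos.2 hh)]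

/-- lower bound for the volume of a small Macbeath region of a good cap -/
lemma good_vol {K : Set V} {t : ℝ} {y : V} {l : V →L[ℝ] ℝ}
    {s : ℝ} (hg : Good K t y l s) :
    ENNReal.ofReal ((1 / 5) ^ finrank ℝ V * (t / 2) / (4 * ((finrank ℝ V : ℝ) + 1)) ^ finrank ℝ V)
      ≤ volume (mac K y (1 / 5)) := by
  set D := finrank ℝ V
  have h1 : ENNReal.ofReal (t / 2) ≤ ENNReal.ofReal ((4 * ((D : ℝ) + 1)) ^ D) * volume (QQ K y) := by
    rw [← mac_vol K y (by positivity)]
    exact hg.lo.trans (measure_mono hg.sub)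
  rw [mac_vol K y (by norm_num)]
  have hpos : (0 : ℝ) < (4 * ((D : ℝ) + 1)) ^ D := by positivity
  have h2 : ENNReal.ofReal ((t / 2) / (4 * ((D : ℝ) + 1)) ^ D) ≤ volume (QQ K y) := by
    rw [ENNReal.ofReal_div_of_pos hpos]
    exact ENNReal.div_le_of_le_mul' h1
  calc ENNReal.ofReal ((1 / 5) ^ D * (t / 2) / (4 * ((D : ℝ) + 1)) ^ D)
      = ENNReal.ofReal ((1 / 5) ^ D) * ENNReal.ofReal ((t / 2) / (4 * ((D : ℝ) + 1)) ^ D) := by
        rw [← ENNReal.ofReal_mul (by positivity)]
        congr 1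
        ring
    _ ≤ _ := by gcongr

lemma cap_smul (K : Set V) (l : V →L[ℝ] ℝ) (s : ℝ) {c : ℝ} (hc : 0 < c) :
    cap K (c • l) (c * s) = cap K l s := by
  ext x
  constructor
  · rintro ⟨h1, h2⟩
    refine ⟨h1, ?_⟩
    rw [ContinuousLinearMap.smul_apply, smul_eq_mul] at h2
    exact le_of_mul_le_mul_left h2 hc
  · rintro ⟨h1, h2⟩
    refine ⟨h1, ?_⟩
    rw [ContinuousLinearMap.smul_apply, smul_eq_mul]
    exact mul_le_mul_of_nonneg_left h2 hc.le

end

theorem cov : S_REG → S_ELR → S_COV := by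
  intro hREG hELR V _ _ _ _ _ _ K hK hD t ht hvol
  obtain ⟨hconv, hcomp, hint⟩ := hK
  have hK' : IsBody K := ⟨hconv, hcomp, hint⟩
  set D := finrank ℝ V with hDdef
  -- normalised good caps
  have hnorm : ∀ (ℓ' : V →L[ℝ] ℝ) (s' : ℝ), ENNReal.ofReal (t / 2) ≤ volume (cap K ℓ' s') →
      volume (cap K ℓ' s') ≤ ENNReal.ofReal t → 0 < ‖ℓ'‖ ∧
      ∃ y, Good K t y (‖ℓ'‖⁻¹ • ℓ') (‖ℓ'‖⁻¹ * s') := by
    intro ℓ' s' h1 h2
    have hpos : 0 < volume (cap K ℓ' s') :=
      lt_of_lt_of_le (ENNReal.ofReal_pos.2 (by linarith)) h1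
    have hlt : ENNReal.ofReal (2 ^ D) * volume (cap K ℓ' s') < volume K := by
      refine lt_of_le_of_lt ?_ hvol
      rw [ENNReal.ofReal_mul (by positivity)]
      gcongr
    have hl : ℓ' ≠ 0 := by
      intro h0
      rw [h0] at hpos h2
      by_cases hs : s' ≤ 0
      · have : cap K (0 : V →L[ℝ] ℝ) s' = K := by
          ext x; exact ⟨fun h => h.1, fun h => ⟨h, hs⟩⟩
        rw [this] at h2
        have h3 : ENNReal.ofReal t ≤ ENNReal.ofReal (2 ^ D * t) := by
          apply ENNReal.ofReal_le_ofReal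
          have : (1 : ℝ) ≤ 2 ^ D := one_le_pow₀ (by norm_num)
          nlinarith
        exact absurd (h2.trans h3) (not_le.2 hvol)
      · have : cap K (0 : V →L[ℝ] ℝ) s' = ∅ := by
          ext x
          constructor
          · rintro ⟨-, h⟩
            exact absurd h (by simpa using hs)
          · intro h; exact absurd h (Set.notMem_empty x)
        rw [this, measure_empty] at hpos
        exact lt_irrefl _ hpos
    have hn : 0 < ‖ℓ'‖ := norm_pos_iff.2 hl
    refine ⟨hn, ?_⟩
    have hcap := cap_smul K ℓ' s' (inv_pos.2 hn)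
    obtain ⟨y, hy1, hy2, hy3⟩ := hREG V K hK' hD (‖ℓ'‖⁻¹ • ℓ') (‖ℓ'‖⁻¹ * s')
      (by rw [hcap]; exact hpos) (by rw [hcap]; exact hlt)
    refine ⟨y, ?_, ?_, ?_, hy1, hy2, hy3⟩
    · rw [norm_smul, norm_inv, norm_norm, inv_mul_cancel₀ hn.ne']
    · rw [hcap]; exact h1
    · rw [hcap]; exact h2
  -- the families
  set P : ℕ → Prop := fun N => ∃ (y : Fin N → V) (ℓ : Fin N → V →L[ℝ] ℝ) (s : Fin N → ℝ),
    (∀ i, Good K t (y i) (ℓ i) (s i)) ∧
    (∀ i j, i ≠ j → Disjoint (mac K (y i) (1 / 5)) (mac K (y j) (1 / 5))) with hP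
  have hP0 : P 0 := ⟨fun i => i.elim0, fun i => i.elim0, fun i => i.elim0, fun i => i.elim0,
    fun i => i.elim0⟩
  set c0 : ℝ := (1 / 5) ^ D * (t / 2) / (4 * ((D : ℝ) + 1)) ^ D with hc0
  have hc0pos : 0 < c0 := by positivity
  have hbound : ∀ N, P N → (N : ℝ) ≤ (volume K).toReal / c0 := by
    rintro N ⟨y, ℓ, s, hg, hdisj⟩
    have h1 : volume (⋃ i ∈ (Finset.univ : Finset (Fin N)), mac K (y i) (1 / 5)) =
        ∑ i, volume (mac K (y i) (1 / 5)) := by
      refine measure_biUnion_finset ?_ ?_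
      · intro i _ j _ hij
        exact hdisj i j hij
      · intro i _
        exact (mac_compact hcomp _ _).measurableSet
    have h2 : (⋃ i ∈ (Finset.univ : Finset (Fin N)), mac K (y i) (1 / 5)) ⊆ K := by
      refine Set.iUnion₂_subset fun i _ => ?_
      refine (mac_mono hconv (y i) (by norm_num) (by norm_num : (1 : ℝ) / 5 ≤ 1)).trans ?_
      exact (hg i).sup.trans fun x hx => hx.1
    have h3 : ∑ i : Fin N, ENNReal.ofReal c0 ≤ volume K := by
      refine le_trans (Finset.sum_le_sum fun i _ => ?_) (h1 ▸ measure_mono h2)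
      exact good_vol (hg i)
    rw [Finset.sum_const, Finset.card_univ, Fintype.card_fin, nsmul_eq_mul] at h3
    have h4 := ENNReal.toReal_mono hcomp.measure_lt_top.ne h3
    rw [ENNReal.toReal_mul, ENNReal.toReal_natCast, ENNReal.toReal_ofReal hc0pos.le] at h4
    rwa [le_div_iff₀ hc0pos]
  obtain ⟨N, hN, hmax⟩ : ∃ N, P N ∧ ¬ P (N + 1) := by
    by_contra hcon
    push Not at hcon
    have hall : ∀ N, P N := fun N => Nat.rec hP0 (fun n ih => hcon n ih) N
    obtain ⟨n, hn⟩ := exists_nat_gt ((volume K).toReal / c0)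
    exact absurd (hbound n (hall n)) (not_le.2 hn)
  obtain ⟨y, ℓ, s, hg, hdisj⟩ := hN
  refine ⟨N, y, ℓ, s, hg, hdisj, ?_⟩
  intro ℓ' s' h1 h2
  obtain ⟨hn, y', hgood⟩ := hnorm ℓ' s' h1 h2
  have hcap := cap_smul K ℓ' s' (inv_pos.2 hn)
  obtain ⟨i, hi⟩ : ∃ i, ¬ Disjoint (mac K y' (1 / 5)) (mac K (y i) (1 / 5)) := by
    by_contra hcon
    push Not at hcon
    apply hmax
    refine ⟨Fin.cons y' y, Fin.cons (‖ℓ'‖⁻¹ • ℓ') ℓ, Fin.cons (‖ℓ'‖⁻¹ * s') s, ?_, ?_⟩
    · intro i
      refine Fin.cases ?_ (fun i => ?_) i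
      · exact hgood
      · exact hg i
    · intro i j
      refine Fin.cases ?_ (fun i => ?_) i
      · refine Fin.cases ?_ (fun j => ?_) j
        · intro h; exact absurd rfl h
        · intro _; exact hcon j
      · refine Fin.cases ?_ (fun j => ?_) j
        · intro _; exact (hcon i).symm
        · intro h
          exact hdisj i j fun h' => h (by rw [h'])
  rw [Set.not_disjoint_iff_nonempty_inter] at hi
  refine ⟨i, ?_, ?_⟩
  · rw [← hcap]
    refine hgood.sub.trans ?_
    have h3 : (mac K (y i) (1 / 5) ∩ mac K y' (1 / 5)).Nonempty := by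
      rw [Set.inter_comm]; exact hi
    refine (hELR V K hconv (y i) y' h3 (4 * ((D : ℝ) + 1)) (by positivity)).trans ?_
    refine mac_mono hconv (y i) (by positivity) ?_
    linarith
  · intro x hx
    have h4 := hELR V K hconv y' (y i) hi (1 / 5) (by norm_num) hx
    have h5 := good_lt hcomp ht hgood (by norm_num) (by norm_num) h4
    rw [ContinuousLinearMap.smul_apply, smul_eq_mul] at h5
    exact lt_of_mul_lt_mul_left h5 (inv_pos.2 hn).le

end Pool.Agent.W704.RP
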