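import Pool.Agent.W829.RP.Defs

/-! Random points are in general position. -/

set_option autoImplicit false

open MeasureTheory Set Module
open scoped ENNReal Pointwise

namespace Pool.Agent.W704.RP

open Pool.Agent.W829.RP

section

variable {V : Type} [NormedAddCommGroup V] [NormedSpace ℝ V]

lemma isOpen_affInd {n m : ℕ} (τ : Fin m → Fin n) :
    IsOpen {ω : Fin n → V | AffineIndependent ℝ (ω ∘ τ)} := by
  rcases m with _ | m
  · have : {ω : Fin n → V | AffineIndependent ℝ (ω ∘ τ)} = univ := by
      ext ω
      simp only [Set.mem_ofPred_eq, mem_univ, iff_true]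
      exact affineIndependent_of_subsingleton ℝ _
    rw [this]
    exact isOpen_univ
  · have h : {ω : Fin n → V | AffineIndependent ℝ (ω ∘ τ)} =
        (fun (ω : Fin n → V) (i : {x : Fin (m + 1) // x ≠ 0}) => ω (τ i) - ω (τ 0)) ⁻¹'
          {f : {x : Fin (m + 1) // x ≠ 0} → V | LinearIndependent ℝ f} := by
      ext ω
      rw [Set.mem_preimage]
      exact affineIndependent_iff_linearIndependent_vsub ℝ (ω ∘ τ) 0
    rw [h]
    refine isOpen_setOfPred_linearIndependent.preimage ?_
    exact continuous_pi fun i => (continuous_apply _).sub (continuous_apply _)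

variable [FiniteDimensional ℝ V] [MeasureSpace V] [BorelSpace V]
  [(volume : Measure V).IsAddHaarMeasure]

lemma meas_dep (μ : Measure V) [SigmaFinite μ] (hμ : μ ≪ volume) (n m : ℕ)
    (hm : m ≤ finrank ℝ V + 1) (τ : Fin m ↪ Fin n) :
    Measure.pi (fun _ : Fin n => μ) {ω | ¬ AffineIndependent ℝ (ω ∘ τ)} = 0 := by
  induction m with
  | zero =>
    have : {ω : Fin n → V | ¬ AffineIndependent ℝ (ω ∘ τ)} = ∅ := by
      ext ω
      simp only [Set.mem_ofPred_eq, mem_empty_iff_false, iff_false, not_not]
      exact affineIndependent_of_subsingleton ℝ _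
    rw [this, measure_empty]
  | succ m ih =>
    rcases Nat.eq_zero_or_pos m with hm0 | hm0
    · subst hm0
      have hss : Subsingleton (Fin (0 + 1)) := inferInstanceAs (Subsingleton (Fin 1))
      have : {ω : Fin n → V | ¬ AffineIndependent ℝ (ω ∘ τ)} = ∅ := by
        ext ω
        simp only [Set.mem_ofPred_eq, mem_empty_iff_false, iff_false, not_not]
        exact affineIndependent_of_subsingleton ℝ _
      rw [this, measure_empty]
    rcases n with _ | n
    · exact (τ 0).elim0
    set τ' : Fin m ↪ Fin (n + 1) := Fin.castSuccEmb.trans τ with hτ'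
    have ih' := ih (by omega) τ'
    set j := τ (Fin.last m) with hj
    set C : Set (Fin (n + 1) → V) :=
      {ω | AffineIndependent ℝ (ω ∘ τ')} ∩ {ω | ¬ AffineIndependent ℝ (ω ∘ τ)} with hC
    have hCm : MeasurableSet C :=
      (isOpen_affInd τ').measurableSet.inter (isOpen_affInd τ).measurableSet.compl
    suffices hC0 : Measure.pi (fun _ : Fin (n + 1) => μ) C = 0 by
      refine measure_mono_null ?_ (measure_union_null ih' hC0)
      intro ω hω
      by_cases h : AffineIndependent ℝ (ω ∘ τ')
      · exact Or.inr ⟨h, hω⟩
      · exact Or.inl h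
    set e := MeasurableEquiv.piFinSuccAbove (fun _ : Fin (n + 1) => V) j with he
    have hmp : MeasurePreserving e (Measure.pi fun _ : Fin (n + 1) => μ)
        (μ.prod (Measure.pi fun _ : Fin n => μ)) :=
      measurePreserving_piFinSuccAbove (fun _ : Fin (n + 1) => μ) j
    set S : Set (V × (Fin n → V)) := e.symm ⁻¹' C with hS
    have hSm : MeasurableSet S := e.symm.measurable hCm
    have h1 : Measure.pi (fun _ : Fin (n + 1) => μ) C =
        (μ.prod (Measure.pi fun _ : Fin n => μ)) S := by
      rw [← hmp.measure_preimage hSm.nullMeasurableSet, hS, ← Set.preimage_comp]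
      have : (e.symm ∘ e : (Fin (n + 1) → V) → (Fin (n + 1) → V)) = id := by
        funext x
        exact e.symm_apply_apply x
      rw [this, Set.preimage_id]
    have h2 : (μ.prod (Measure.pi fun _ : Fin n => μ)) S =
        ((Measure.pi fun _ : Fin n => μ).prod μ) (Prod.swap ⁻¹' S) := by
      rw [← Measure.prod_swap, Measure.map_apply measurable_swap hSm]
    rw [h1, h2, Measure.measure_prod_null (measurable_swap hSm)]
    refine Filter.Eventually.of_forall fun η => ?_
    show μ (Prod.mk η ⁻¹' (Prod.swap ⁻¹' S)) = 0
    apply hμ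
    set p0 : Fin m → V := fun i => (j.insertNth (0 : V) η : Fin (n + 1) → V) (τ' i) with hp0
    have hne : ∀ i, τ' i ≠ j := by
      intro i h
      have := τ.injective h
      exact (Fin.castSucc_lt_last i).ne this
    have hval : ∀ (x : V) (i : Fin m), (j.insertNth x η : Fin (n + 1) → V) (τ' i) = p0 i := by
      intro x i
      obtain ⟨k, hk⟩ := Fin.exists_succAbove_eq (hne i)
      rw [hp0]
      simp only
      rw [← hk, Fin.insertNth_apply_succAbove, Fin.insertNth_apply_succAbove]
    have hsub : (Prod.mk η ⁻¹' (Prod.swap ⁻¹' S)) ⊆ (affineSpan ℝ (range p0) : Set V) := by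
      intro x hx
      have hx' : (j.insertNth x η : Fin (n + 1) → V) ∈ C := hx
      obtain ⟨hx1, hx2⟩ := hx'
      by_contra hcon
      apply hx2
      set ω : Fin (n + 1) → V := j.insertNth x η with hω
      refine AffineIndependent.affineIndependent_of_notMem_span (i := Fin.last m) ?_ ?_
      · let f : {y : Fin (m + 1) // y ≠ Fin.last m} ↪ Fin m :=
          ⟨fun y => y.1.castPred y.2, by
            intro a b hab
            have h3 := congrArg Fin.castSucc hab
            simp only [Fin.castSucc_castPred] at h3
            exact Subtype.ext h3⟩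
        have h3 := AffineIndependent.comp_embedding f hx1
        have h4 : (fun y : {y : Fin (m + 1) // y ≠ Fin.last m} => (ω ∘ τ) y.1) =
            (ω ∘ τ') ∘ f := by
          funext y
          show ω (τ y.1) = ω (τ (Fin.castSucc (y.1.castPred y.2)))
          rw [Fin.castSucc_castPred]
        rw [h4]
        exact h3
      · intro h3
        apply hcon
        have h4 : (ω ∘ τ) (Fin.last m) = x := by
          show (j.insertNth x η : Fin (n + 1) → V) (τ (Fin.last m)) = x
          rw [← hj, Fin.insertNth_apply_same]
        rw [h4] at h3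
        refine affineSpan_mono ℝ ?_ h3
        rintro _ ⟨y, hy, rfl⟩
        refine ⟨y.castPred hy, ?_⟩
        rw [← hval x]
        show ω (τ (Fin.castSucc (y.castPred hy))) = ω (τ y)
        rw [Fin.castSucc_castPred]
    refine measure_mono_null hsub (Measure.addHaar_affineSubspace _ _ ?_)
    intro htop
    have h5 := congrArg AffineSubspace.direction htop
    rw [direction_affineSpan, AffineSubspace.direction_top] at h5
    have h6 := finrank_vectorSpan_range_le ℝ p0 (n := m - 1) (by rw [Fintype.card_fin]; omega)
    rw [h5, finrank_top] at h6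
    omega

end

theorem gp : S_GP := by
  intro V _ _ _ _ _ _ K hK n
  obtain ⟨hconv, hcomp, hint⟩ := hK
  have hpos : 0 < volume K :=
    lt_of_lt_of_le (isOpen_interior.measure_pos volume hint) (measure_mono interior_subset)
  have hfin : IsFiniteMeasure (unif K) := by
    refine ⟨?_⟩
    unfold unif
    rw [Measure.smul_apply, Measure.restrict_apply_univ, smul_eq_mul]
    exact ENNReal.mul_lt_top (ENNReal.inv_lt_top.2 hpos) hcomp.measure_lt_top
  have hac : unif K ≪ volume := by
    intro s hs
    unfold unif
    rw [Measure.smul_apply, smul_eq_mul]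
    have : (volume.restrict K) s = 0 := le_antisymm
      ((Measure.restrict_le_self s).trans hs.le) zero_le
    rw [this, mul_zero]
  have hall : ∀ τ : Fin (finrank ℝ V + 1) ↪ Fin n, ∀ᵐ ω ∂(samp K n),
      AffineIndependent ℝ (ω ∘ τ) := fun τ => meas_dep (unif K) hac n _ le_rfl τ
  exact ae_all_iff.2 hall

end Pool.Agent.W704.RP
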